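import Mathlib
import Pool.Agent.N290.RM.Stm
import Pool.Agent.N787.RK.LT

/-!
# Project RM (helper290), part LTG: local solutions of the Bezout equation for dilated data,
general weights

Part LTG of the project RM of helper290 (statements in `Pool/Agent/N290/RM/Stm.lean`,
`Pool/Agent/N290/RL/Stm.lean` and plan by helper290); written by helper249.  The proof follows
`Pool/Agent/N787/RK/LT.lean` (helper787), whose lemmas are used.
-/

set_option autoImplicit false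

open Complex MeasureTheory Set Filter Topology
open scoped ENNReal

namespace Pool.Agent.N249.RM

open Pool.Agent.N290.RJ Pool.Agent.N290.RK Pool.Agent.N290.RL Pool.Agent.N290.RM
  Pool.Agent.N787.RK

variable {d : ℕ}

/-- subtracting a small solution and approximating -/
theorem lal_use {T R ρ η τ c₀ c₁ c₂ : ℝ} {a : E d → ℝ} {p : E d}
    (hLA : ∀ h : E d → ℂ, ContDiffOn ℝ 1 h {z | z ∈ B d ∧ nm (z - p) < R} →
      (∀ z ∈ B d, nm (z - p) < R → ‖h z‖ ≤ T) →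
      (∀ z ∈ B d, nm (z - p) < R → ∀ ξ, ‖db h z ξ‖ ≤ T * a z ^ 2 * len z ξ) →
      ∃ H : E d → ℂ, DifferentiableOn ℂ H (B d) ∧
        ∀ z ∈ B d, nm (z - p) < ρ → ‖H z - h z‖ ≤ η)
    (hp : N p = 1) (hRτ : R ≤ τ) {Y v : E d → ℂ} {Φ : E d → E d → ℂ}
    (hY : ContDiffOn ℝ 1 Y (B d)) (hYb : ∀ z ∈ B d, ‖Y z‖ ≤ c₀)
    (hYd : ∀ z ∈ B d, ∀ ξ, ‖db (fun w => starRingEnd ℂ (Y w)) z ξ - Φ z ξ‖ ≤
      c₁ * a z ^ 2 * len z ξ)
    (hv : ContDiffOn ℝ 1 v {z | z ∈ B d ∧ 1 - nm z < τ})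
    (hvb : ∀ z ∈ B d, 1 - nm z < τ → ‖v z‖ ≤ η ∧ ∀ ξ,
      ‖db v z ξ - Φ z ξ‖ ≤ c₂ * a z ^ 2 * len z ξ)
    (hT1 : c₀ + η ≤ T) (hT2 : c₁ + c₂ ≤ T) :
    ∃ H : E d → ℂ, DifferentiableOn ℂ H (B d) ∧
      ∀ z ∈ B d, nm (z - p) < min ρ R → ‖H z - starRingEnd ℂ (Y z)‖ ≤ 2 * η := by
  have hR : ∀ z : E d, nm (z - p) < R → 1 - nm z < τ := fun z hz =>
    lt_of_le_of_lt (one_sub_nm hp) (lt_of_lt_of_le hz hRτ)
  have hYc : ContDiffOn ℝ 1 (fun w => starRingEnd ℂ (Y w)) (B d) :=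
    Complex.conjCLE.contDiff.comp_contDiffOn hY
  obtain ⟨H, hH, hHb⟩ := hLA (fun w => starRingEnd ℂ (Y w) - v w)
    ((hYc.mono fun z hz => hz.1).sub (hv.mono fun z hz => ⟨hz.1, hR z hz.2⟩))
    (fun z hz hzR => by
      refine (norm_sub_le _ _).trans ?_
      rw [RCLike.norm_conj]
      linarith [hYb z hz, (hvb z hz (hR z hzR)).1])
    (fun z hz hzR ξ => by
      have h1 : DifferentiableAt ℝ (fun w => starRingEnd ℂ (Y w)) z :=
        (hYc.contDiffAt (B_open.mem_nhds hz)).differentiableAt one_ne_zero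
      have hmem : z ∈ {z : E d | z ∈ B d ∧ 1 - nm z < τ} := ⟨hz, hR z hzR⟩
      have h2 : DifferentiableAt ℝ v z :=
        (hv.contDiffAt ((V_open τ).mem_nhds hmem)).differentiableAt one_ne_zero
      rw [db_sub h1 h2]
      have h3 := hYd z hz ξ
      have h4 := (hvb z hz (hR z hzR)).2 ξ
      have h5 : db (fun w => starRingEnd ℂ (Y w)) z ξ - db v z ξ =
          (db (fun w => starRingEnd ℂ (Y w)) z ξ - Φ z ξ) - (db v z ξ - Φ z ξ) := by ring
      rw [h5]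
      refine (norm_sub_le _ _).trans ((add_le_add h3 h4).trans ?_)
      have h6 : 0 ≤ a z ^ 2 * len z ξ := mul_nonneg (sq_nonneg _) (len_nonneg _ _)
      have h7 := mul_le_mul_of_nonneg_right hT2 h6
      calc _ = (c₁ + c₂) * (a z ^ 2 * len z ξ) := by ring
        _ ≤ T * (a z ^ 2 * len z ξ) := h7
        _ = _ := by ring)
  refine ⟨H, hH, fun z hz hzρ => ?_⟩
  have h1 := hHb z hz (lt_of_lt_of_le hzρ (min_le_left _ _))
  have h2 := (hvb z hz (hR z (lt_of_lt_of_le hzρ (min_le_right _ _)))).1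
  have h3 : H z - starRingEnd ℂ (Y z) = (H z - (starRingEnd ℂ (Y z) - v z)) - v z := by ring
  rw [h3]
  exact (norm_sub_le _ _).trans (by linarith)

/-- **local solutions for dilated data, general weights** -/
theorem LTG_of (d : ℕ) (hN : YN d) (_hF : YF d) (hX : XG d) (hS : SSG d) (hL : LALG d) :
    LTG d := by
  intro M L ε A τ σ hε hτ hσ
  obtain ⟨CX0, hCX0, hXC⟩ := hX (ε / 4) (ε / 2) (by linarith) (by linarith)
  obtain ⟨Q, hQ⟩ : ∃ Q, Q = max CX0 1 := ⟨_, rfl⟩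
  have hQ1 : 1 ≤ Q := hQ ▸ le_max_right _ _
  have hQ2 : CX0 ≤ Q := hQ ▸ le_max_left _ _
  have hQ0 : 0 < Q := by linarith
  obtain ⟨c, hc⟩ : ∃ c, c = min ((ε / 4) ^ 2) 1 := ⟨_, rfl⟩
  have hc0 : 0 < c := by rw [hc]; positivity
  obtain ⟨W, hW⟩ : ∃ W : ℝ, W = 2 * M + L * ((Q + 2) ^ M * (1 + 2 * M * (Q ^ M * |A|))) :=
    ⟨_, rfl⟩
  have hW0 : 0 ≤ W := by rw [hW]; positivity
  obtain ⟨η, hη⟩ : ∃ η : ℝ, η = min 1 (c / (2 * (W + 1))) := ⟨_, rfl⟩
  have hη0 : 0 < η := by rw [hη]; positivity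
  have hη1 : η ≤ 1 := hη ▸ min_le_left _ _
  have hηW : η * W ≤ c / 2 := by
    have h1 : η ≤ c / (2 * (W + 1)) := hη ▸ min_le_right _ _
    have h2 : η * (2 * (W + 1)) ≤ c := (le_div_iff₀ (by positivity)).1 h1
    nlinarith
  obtain ⟨t₀, C₂, ht₀, hC₂, hSS⟩ := hS Q η σ hQ0 hη0 hσ
  obtain ⟨t₁, C₂', ht₁, hC₂', hSS'⟩ := hS 1 η σ one_pos hη0 hσ
  obtain ⟨R, hR⟩ : ∃ R, R = min t₀ t₁ := ⟨_, rfl⟩
  have hR0 : 0 < R := by rw [hR]; exact lt_min ht₀ ht₁
  have hRτ : R ≤ t₀ := hR ▸ min_le_left _ _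
  have hRτ' : R ≤ t₁ := hR ▸ min_le_right _ _
  obtain ⟨T, hT⟩ : ∃ T : ℝ, T = Q ^ M * |A| + |A| * (M * Q ^ M) + (Q + η) + (Q + C₂) + (1 + η) +
    C₂' := ⟨_, rfl⟩
  have hA0 : 0 ≤ |A| := abs_nonneg A
  have ha1 : 0 ≤ Q ^ M * |A| := by positivity
  have ha2 : 0 ≤ |A| * (M * Q ^ M) := by positivity
  have hT0 : 0 < T := by linarith
  obtain ⟨ρ, hρ, hLA0⟩ := hL T R τ hT0 hR0 hτ η hη0
  refine ⟨6 / c + (Q ^ M * |A| + 1) * (Q + 2) ^ M * (2 / c), min ρ R, lt_min hρ hR0, ?_⟩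
  intro p hp f G κ a hArb hAW hTail haσ habw hfd k
  have hLA := hLA0 a hAW hTail
  have hrk0 := rad_nonneg k
  have hrk1 : rad k ≤ 1 := (rad_lt_one k).le
  have hrz : ∀ z ∈ B d, rad k • z ∈ B d := fun z hz => smul_mem_B hz hrk0 hrk1
  choose X P hXP using fun j => hXC (f j) a (hArb.f1 j) (hArb.f2 j) hAW (hfd j)
  -- the conjugates of the `X j`
  have hHX : ∀ j, ∃ H : E d → ℂ, DifferentiableOn ℂ H (B d) ∧
      ∀ z ∈ B d, nm (z - p) < min ρ R → ‖H z - starRingEnd ℂ (X j k z)‖ ≤ 2 * η := by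
    intro j
    obtain ⟨v, hv, hvb⟩ := hSS (f j) a (P j) (hArb.f1 j) hAW haσ habw (hfd j)
      (fun k => (hXP j k).2.1)
      (fun k z hz => by
        obtain ⟨-, hP, -, -, -, hPP, hξ⟩ := (hXP j k).2.2 z hz
        have hw := (hAW.a2 z hz).1.le
        obtain ⟨hst, -, hww, -⟩ := hN z hz k
        have h1 : 0 ≤ st k z / ww z k := div_nonneg hst hww.le
        refine ⟨hP.trans hQ2, hPP.trans ?_, fun ξ => (hξ ξ).2.2.2.trans ?_⟩
        · exact mul_le_mul_of_nonneg_right (mul_le_mul_of_nonneg_right hQ2 hw) h1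
        · exact mul_le_mul_of_nonneg_right (mul_le_mul_of_nonneg_right
            (mul_le_mul_of_nonneg_right hQ2 hw) (pow_nonneg hww.le 3)) (len_nonneg _ _)) k
    exact lal_use (hLA p hp) hp hRτ (c₀ := Q) (c₁ := Q) (c₂ := C₂)
      (Φ := fun z ξ => P j k z * starRingEnd ℂ (xj (f j) k z ξ))
      (hXP j k).1 (fun z hz => ((hXP j k).2.2 z hz).1.trans hQ2)
      (fun z hz ξ => (((hXP j k).2.2 z hz).2.2.2.2.2.2 ξ).2.1.trans
        (mul_le_mul_of_nonneg_right (mul_le_mul_of_nonneg_right hQ2 (sq_nonneg _))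
          (len_nonneg _ _))) hv hvb (by linarith) (by linarith)
  -- the conjugates of the `f j`
  have hHf : ∀ j, ∃ H : E d → ℂ, DifferentiableOn ℂ H (B d) ∧
      ∀ z ∈ B d, nm (z - p) < min ρ R → ‖H z - starRingEnd ℂ (f j (rad k • z))‖ ≤ 2 * η := by
    intro j
    obtain ⟨v, hv, hvb⟩ := hSS' (f j) a (fun _ _ => 1) (hArb.f1 j) hAW haσ habw (hfd j)
      (fun k => contDiffOn_const)
      (fun k z hz => by
        have hw := (hAW.a2 z hz).1.le
        obtain ⟨hst, -, hww, -⟩ := hN z hz k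
        have h1 : 0 ≤ st k z / ww z k := div_nonneg hst hww.le
        refine ⟨by rw [norm_one], ?_, fun ξ => ?_⟩
        · rw [sub_self, norm_zero]; positivity
        · have h2 := len_nonneg z ξ
          rw [fderiv_const_apply, zero_apply, norm_zero]; positivity) k
    exact lal_use (hLA p hp) hp hRτ' (c₀ := 1) (c₁ := 0) (c₂ := C₂')
      (Y := fun z => f j (rad k • z))
      (Φ := fun z ξ => 1 * starRingEnd ℂ (xj (f j) k z ξ))
      (cd_dil (cd_hol (hArb.f1 j)) hrk0 hrk1) (fun z hz => hArb.f2 j _ (hrz z hz))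
      (fun z hz ξ => by
        rw [db_conj_dil (da_hol (hArb.f1 j) (hrz z hz)), one_mul]
        unfold xj
        rw [sub_self, norm_zero, zero_mul, zero_mul]) hv hvb (by linarith) (by linarith)
  -- the functions `Z κ l`
  have hKp := fun l => Kf_props (M := M) (ε := ε) (r := rad k) (A := A) (C := Q) (f := f)
    (X := fun j => X j k) (κ := κ l) hε hrk0 hrk1 hArb.f1 (hArb.k1 l) (hArb.k2 l) hQ1
    (fun j => (hXP j k).1) (fun j z hz => ((hXP j k).2.2 z hz).1.trans hQ2)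
    (fun j z hz => ((hXP j k).2.2 z hz).2.2.1) (a := fun z => a z ^ 2)
    (fun z _ => sq_nonneg _)
    (fun j z hz ξ => (((hXP j k).2.2 z hz).2.2.2.2.2.2 ξ).1.trans
      (mul_le_mul_of_nonneg_right (mul_le_mul_of_nonneg_right hQ2 (sq_nonneg _))
        (len_nonneg _ _)))
  have hHK : ∀ l, ∃ H : E d → ℂ, DifferentiableOn ℂ H (B d) ∧
      ∀ z ∈ B d, nm (z - p) < ρ → ‖H z - Kf ε (rad k) f (fun j => X j k) (κ l) z‖ ≤ η := by
    intro l
    refine hLA p hp _ ((hKp l).1.mono fun z hz => hz.1)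
      (fun z hz _ => ((hKp l).2 z hz).1.trans (by linarith))
      (fun z hz _ ξ => (((hKp l).2 z hz).2 ξ).trans ?_)
    exact mul_le_mul_of_nonneg_right (mul_le_mul_of_nonneg_right (by linarith) (sq_nonneg _))
      (len_nonneg _ _)
  choose HX hHXd hHXb using hHX
  choose Hf hHfd hHfb using hHf
  choose HK hHKd hHKb using hHK
  obtain ⟨S, hSdef⟩ : ∃ S : E d → ℂ, S = fun z => ∑ j, f j (rad k • z) * Hf j z +
    ∑ l, G l (rad k • z) * (HK l z * ∏ j, HX j z) := ⟨_, rfl⟩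
  have hdilf : ∀ g : E d → ℂ, DifferentiableOn ℂ g (B d) →
      DifferentiableOn ℂ (fun z => g (rad k • z)) (B d) := fun g hg z hz =>
    ((dil_hasFDerivAt (da_hol hg (hrz z hz))).differentiableAt).differentiableWithinAt
  have hprod : DifferentiableOn ℂ (fun z => ∏ j, HX j z) (B d) := by
    exact prod_hol Finset.univ hHXd
  have hSd : DifferentiableOn ℂ S (B d) := by
    rw [hSdef]
    refine DifferentiableOn.add (DifferentiableOn.fun_sum fun j _ => ?_)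
      (DifferentiableOn.fun_sum fun l _ => ?_)
    · exact (hdilf _ (hArb.f1 j)).mul (hHfd j)
    · exact (hdilf _ (hArb.g1 l)).mul ((hHKd l).mul hprod)
  -- estimates
  have hmain : ∀ z ∈ B d, nm (z - p) < min ρ R → c / 2 ≤ ‖S z‖ ∧ (∀ j, ‖Hf j z‖ ≤ 3) ∧
      ∀ l, ‖HK l z * ∏ j, HX j z‖ ≤ (Q ^ M * |A| + 1) * (Q + 2) ^ M := by
    intro z hz hzρ
    obtain ⟨D, hD1, hD2⟩ := D_val (M := M) (L := L) (ε := ε) (r := rad k) (f := f)
      (X := fun j => X j k) (G := G) (κ := κ) (z := z) hε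
      (fun h => hArb.k3 _ (hrz z hz) h) (fun j => ((hXP j k).2.2 z hz).2.2.1)
      (fun j => ((hXP j k).2.2 z hz).2.2.2.1)
    obtain ⟨h1, h2, h3⟩ := main_alg (M := M) (L := L) (Q := Q) (A := Q ^ M * |A|) (η := η) hQ1
      hη0.le hη1 (f := fun j => f j (rad k • z)) (Hf := fun j => Hf j z)
      (x := fun j => starRingEnd ℂ (X j k z)) (HX := fun j => HX j z)
      (G := fun l => G l (rad k • z)) (K := fun l => Kf ε (rad k) f (fun j => X j k) (κ l) z)
      (HK := fun l => HK l z) (D := (D : ℂ))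
      (fun j => hArb.f2 j _ (hrz z hz)) (fun j => hHfb j z hz hzρ)
      (fun j => by rw [RCLike.norm_conj]; exact ((hXP j k).2.2 z hz).1.trans hQ2)
      (fun j => hHXb j z hz hzρ) (fun l => hArb.g2 l _ (hrz z hz))
      (fun l => ((hKp l).2 z hz).1)
      (fun l => hHKb l z hz (lt_of_lt_of_le hzρ (min_le_left _ _))) ha1 hD2
    refine ⟨?_, h2, h3⟩
    rw [← hW] at h1
    have h4 : ‖S z - (D : ℂ)‖ ≤ c / 2 := by
      rw [hSdef]
      exact h1.trans hηW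
    have h5 : c ≤ ‖(D : ℂ)‖ := by
      rw [Complex.norm_real, Real.norm_eq_abs, hc]
      exact hD1.trans (le_abs_self D)
    have h6 : ‖(D : ℂ)‖ ≤ ‖(D : ℂ) - S z‖ + ‖S z‖ := by
      have := norm_add_le ((D : ℂ) - S z) (S z)
      rwa [sub_add_cancel] at this
    rw [norm_sub_rev] at h6
    linarith
  have hSne : ∀ z ∈ B d, nm (z - p) < min ρ R → S z ≠ 0 := by
    intro z hz hzρ h0
    have := (hmain z hz hzρ).1
    rw [h0, norm_zero] at this
    linarith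
  refine ⟨fun j z => Hf j z / S z, fun l z => (HK l z * ∏ j, HX j z) / S z, ?_, ?_, ?_⟩
  · intro j
    exact div_hol hSd (hHfd j) fun z hz hz2 => hSne z hz hz2
  · intro l
    exact div_hol hSd ((hHKd l).mul hprod) fun z hz hz2 => hSne z hz hz2
  · intro z hz hzρ
    obtain ⟨h1, h2, h3⟩ := hmain z hz hzρ
    have hS0 : 0 < ‖S z‖ := by linarith
    have hne := hSne z hz hzρ
    have h6 : (0 : ℝ) ≤ 6 / c := by positivity
    have h7 : (0 : ℝ) ≤ (Q ^ M * |A| + 1) * (Q + 2) ^ M * (2 / c) := by positivity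
    have hinv : 1 / ‖S z‖ ≤ 2 / c := by
      rw [div_le_div_iff₀ hS0 hc0]; linarith
    refine ⟨fun j => ?_, fun l => ?_, ?_⟩
    · rw [norm_div]
      have h8 : ‖Hf j z‖ / ‖S z‖ ≤ 6 / c := by
        calc ‖Hf j z‖ / ‖S z‖ = ‖Hf j z‖ * (1 / ‖S z‖) := by ring
          _ ≤ 3 * (2 / c) := mul_le_mul (h2 j) hinv (by positivity) (by norm_num)
          _ = 6 / c := by ring
      linarith
    · rw [norm_div]
      have h8 : ‖HK l z * ∏ j, HX j z‖ / ‖S z‖ ≤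
          (Q ^ M * |A| + 1) * (Q + 2) ^ M * (2 / c) := by
        calc ‖HK l z * ∏ j, HX j z‖ / ‖S z‖ = ‖HK l z * ∏ j, HX j z‖ * (1 / ‖S z‖) := by ring
          _ ≤ _ := mul_le_mul (h3 l) hinv (by positivity) (by positivity)
      linarith
    · have h8 : ∑ j, f j (rad k • z) * (Hf j z / S z) +
          ∑ l, G l (rad k • z) * ((HK l z * ∏ j, HX j z) / S z) = S z / S z := by
        rw [hSdef]
        simp only [add_div, Finset.sum_div, mul_div_assoc]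
      rw [h8, div_self hne]

end Pool.Agent.N249.RM
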